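import Pool.Agent.MP_5d9b3c_ag.P3K.Spec
import Pool.Agent.MP_ee8c61_ag.H10.Defs

/-! The series of the charts of the blow-up of an ideal: definitions and statements. -/

namespace Pool.Agent.MP_5d9b3c_ag.O3I

open Set MeasureTheory MvPolynomial P3K H48G

noncomputable section

/-- The series has no pole at `T`. -/
def NoP (T : ℂ) (S : PowerSeries ℂ) : Prop :=
  ∃ Q P : Polynomial ℂ, Q.eval T ≠ 0 ∧ (Q : PowerSeries ℂ) * S = P

/-- The factor `p` for the earlier indices. -/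
def fac (p : ℕ) {r : ℕ} (j i : Fin r) : ℕ := if i < j then p else 1

/-- The ratios. -/
def rat (p : ℕ) {L : Type} [Field L] {n r : ℕ} (x : Fin n → L)
    (f : Fin r → MvPolynomial (Fin n) ℤ) (j i : Fin r) : L :=
  aeval x (f i) / (fac p j i * aeval x (f j))

/-- The functions whose values are integral on the region of the chart `j`. -/
def dom (p : ℕ) {L : Type} [Field L] {n r : ℕ} (x : Fin n → L)
    (f : Fin r → MvPolynomial (Fin n) ℤ) (j : Fin r) : Set L := range x ∪ range (rat p x f j)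

variable (p : ℕ) [Fact p.Prime] {n r : ℕ}

/-- The points where `f j` is the first function of largest absolute value `p ^ (-a)`. -/
def Zs (f : Fin r → MvPolynomial (Fin n) ℤ) (j : Fin r) (a : ℤ) : Set (Fin n → ℚ_[p]) :=
  {t ∈ Bl p n | ‖aeval t (f j)‖ = (p : ℝ) ^ (-a) ∧
    ∀ i, ‖aeval t (f i)‖ ≤ ‖(fac p j i : ℚ_[p])‖ * (p : ℝ) ^ (-a)}

/-- The series of the chart `j`. -/
def zser (f : Fin r → MvPolynomial (Fin n) ℤ) (j : Fin r) : PowerSeries ℂ :=
  PowerSeries.mk fun m : ℕ => ((mN p n (Zs p f j m)).toReal : ℂ)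

/-- From box sums to the series of a chart. -/
def RIGJ : Prop := ∀ {p : ℕ} [Fact p.Prime] {L : Type} [Field L] [Algebra ℚ_[p] L] {n r : ℕ}
  {ι : Type} [Fintype ι] (x : Fin n → L) (D : Fin n → Derivation ℚ_[p] L L)
  (f : Fin r → MvPolynomial (Fin n) ℤ) (j : Fin r) (b : ι → Box p L n) (d : ι → MD Unit n),
  AlgebraicIndependent ℚ_[p] x → (∀ i j, D i (x j) = if i = j then 1 else 0) →
  (∀ g : L, ∃ s ∈ Algebra.adjoin ℚ_[p] (range x), s ≠ 0 ∧ s * g ∈ Algebra.adjoin ℚ_[p] (range x)) →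
  Dis b → Itg b (dom p x f j) → Cov b (dom p x f j) →
  (∀ i, (b i).Adp 1 x (fun _ => aeval x (f j)) (d i)) →
  ∀ {K : Type} [CommRing K] [Algebra ℂ K] (ξ : Kˣ) (O : Subalgebra ℂ K) (ε : O →ₐ[ℂ] ℂ)
    (hξ : (ξ : K) ∈ O), (∀ i, (d i).ND p fun _ => ξ) → ∑ i, (d i).val p (fun _ => ξ) ∈ O →
    NoP (ε ⟨ξ, hξ⟩) (zser p f j)

/-- What the geometry has to supply: no pole on a chart. -/
def Core : Prop := ∀ (r : ℕ) (f : Fin r → MvPolynomial (Fin 3) ℤ) (j : Fin r) (p : ℕ)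
  [Fact p.Prime] (b : Polynomial ℂ) (T : ℂ), f j ≠ 0 → T ≠ 0 →
  MP_ee8c61_ag.H10.IsBS (fun i => map (Int.castRingHom ℂ) (f i)) b →
  b.eval ((-(Real.log ‖T‖ / Real.log p) : ℝ) : ℂ) ≠ 0 → NoP T (zser p f j)

end

end Pool.Agent.MP_5d9b3c_ag.O3I
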