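import Pool.Agent.MP_5d9b3c_ag.O3I.Defs
import Pool.Agent.MP_5d9b3c_ag.P3K.Asm

/-! From box sums to the series of a chart. -/

namespace Pool.Agent.MP_5d9b3c_ag.O3I

open Set MeasureTheory MvPolynomial P3K H48G H72 Filter Topology
open scoped ENNReal

variable {p : ℕ} [Fact p.Prime] {L : Type} [Field L] [Algebra ℚ_[p] L] {n r : ℕ}

/-- Comparison with one box on the part that is covered. -/
theorem cmp_on {ι : Type} [Fintype ι] {b : ι → Box p L n} {c : Box p L n} (hd : Dis b)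
    (hs : Sb b fun _ : Unit => c) (j : L) (x : Fin n → L) (G : Pt p L → ℝ≥0∞)
    (h : ∀ᵐ t ∂(mN p n).restrict (Bl p n),
      G (c.Φ t) ≠ 0 → ∃ i, ∃ s ∈ Bl p n, (b i).Φ s = c.Φ t) :
    ∑ i, ∫⁻ t in Bl p n, G ((b i).Φ t) * ‖((b i).Φ t).ev (j * (b i).jac x)‖ₑ ∂mN p n =
      ∫⁻ t in Bl p n, G (c.Φ t) * ‖(c.Φ t).ev (j * c.jac x)‖ₑ ∂mN p n := by
  have m1 : ∀ i, MeasurableSet (c.ov (b i)) := fun i => (Box.open_ov _ _).measurableSet
  rw [Finset.sum_congr rfl fun i _ => (int_split (fun _ _ _ _ _ _ _ => rfl) hs i _).trans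
    ((Fintype.sum_unique _).trans (Box.int_ov c (b i) j x G)), ← tsum_fintype (L := .unconditional _),
    ← lintegral_iUnion m1 fun j j' h => Set.disjoint_left.2 fun t ⟨_, s, k1, k2⟩ ⟨_, s', k3, k4⟩ =>
      h (hd j j' s k1 s' k3 (k2.trans k4.symm)), ← lintegral_indicator (.iUnion m1),
    ← lintegral_indicator Metric.isClosed_closedBall.measurableSet]
  refine lintegral_congr_ae ?_
  filter_upwards [(ae_restrict_iff' Metric.isClosed_closedBall.measurableSet).1 h] with t ht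
  by_cases k : t ∈ ⋃ i, c.ov (b i)
  · rw [indicator_of_mem k, indicator_of_mem ((mem_iUnion.1 k).elim fun _ k => k.1)]
  rw [indicator_of_notMem k]
  by_cases k' : t ∈ Bl p n
  · rw [indicator_of_mem k', not_not.1 fun e => k ((ht k' e).elim fun i e =>
      mem_iUnion.2 ⟨i, k', e⟩), zero_mul]
  · rw [indicator_of_notMem k']

theorem fac_ne (j i : Fin r) : (fac p j i : ℚ_[p]) ≠ 0 := by
  rw [fac]
  split_ifs
  exacts [pp_ne, by simp]

theorem ev_rat (y : Pt p L) {x : Fin n → L} (hx : ∀ i, x i ∈ y.O)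
    {f : Fin r → MvPolynomial (Fin n) ℤ} {j : Fin r} (h : y.ev (aeval x (f j)) ≠ 0) (i : Fin r) :
    rat p x f j i ∈ y.O ∧ y.ev (rat p x f j i) =
      y.ev (aeval x (f i)) / (fac p j i * y.ev (aeval x (f j))) := by
  have e : y.ev (fac p j i * aeval x (f j)) = fac p j i * y.ev (aeval x (f j)) := by
    rw [y.ev_mul _ (natCast_mem _ _) _ (IGU.ev_int y hx _).1, Pt.ev_nat]
  have h0 := e ▸ mul_ne_zero (fac_ne j i) h
  exact ⟨Pt.div_mem (IGU.ev_int y hx _).1 h0, by rw [rat, Pt.ev_div (IGU.ev_int y hx _).1 h0, e]⟩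

theorem meas_Zs (f : Fin r → MvPolynomial (Fin n) ℤ) (j : Fin r) (a : ℤ) :
    MeasurableSet (Zs p f j a) := by
  refine (Metric.isClosed_closedBall.inter ((isClosed_eq (IGU.cont (f j)) continuous_const).inter
    (?_ : IsClosed {t : Fin n → ℚ_[p] | ∀ i, ‖aeval t (f i)‖ ≤ _}))).measurableSet
  rw [setOf_forall]
  exact isClosed_iInter fun i => isClosed_le (IGU.cont (f i)) continuous_const

theorem mem_std {b : Box p L n} (f : Fin r → MvPolynomial (Fin n) ℤ) (j : Fin r) (a : Unit → ℤ)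
    {t : Fin n → ℚ_[p]} (ht : t ∈ Bl p n) :
    b.Φ t ∈ Lv (fun _ => aeval b.z (f j)) a ∩
      {y | ∀ c ∈ dom p b.z f j, c ∈ y.O ∧ ‖y.ev c‖ ≤ 1} ↔ t ∈ Zs p f j (a ()) := by
  have e : ∀ g : MvPolynomial (Fin n) ℤ, (b.Φ t).ev (aeval b.z g) = aeval t g := fun g => by
    simpa only [b.sec t ht] using (IGU.ev_int (b.Φ t) (b.zm t ht) g).2
  have h0 : (0 : ℝ) < p ^ (-a ()) := zpow_pos (zero_lt_one.trans one_lt_p) _
  have k : ‖aeval t (f j)‖ = (p : ℝ) ^ (-a ()) → ∀ i, rat p b.z f j i ∈ (b.Φ t).O ∧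
      (‖(b.Φ t).ev (rat p b.z f j i)‖ ≤ 1 ↔
        ‖aeval t (f i)‖ ≤ ‖(fac p j i : ℚ_[p])‖ * (p : ℝ) ^ (-a ())) := fun h i => by
    obtain ⟨h1, h2⟩ := ev_rat (b.Φ t) (b.zm t ht) (f := f) (j := j)
      (by rw [e, ← norm_pos_iff, h]; exact h0) i
    refine ⟨h1, ?_⟩
    rw [h2, e, e, norm_div, norm_mul, h, div_le_one (mul_pos (norm_pos_iff.2 (fac_ne j i)) h0)]
  constructor
  · rintro ⟨h1, h2⟩
    have h3 := e _ ▸ (h1 ()).2
    exact ⟨ht, h3, fun i => (k h3 i).2.1 (h2 _ (Or.inr ⟨i, rfl⟩)).2⟩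
  · rintro ⟨-, h1, h2⟩
    refine ⟨fun _ => ⟨(IGU.ev_int _ (b.zm t ht) _).1, (e _).symm ▸ h1⟩, ?_⟩
    rintro _ (⟨l, rfl⟩ | ⟨i, rfl⟩)
    · exact ⟨b.zm t ht l, by rw [b.sec t ht]; exact mem_bl.1 ht l⟩
    · exact ⟨(k h1 i).1, (k h1 i).2.2 (h2 i)⟩

theorem rIGJ : RIGJ := by
  intro p _ L _ _ n r ι _ x D f j b d hx hD hF hd hi hc ha K _ _ ξ O ε hξ h1 h2
  obtain ⟨b₀, rfl, -, h3⟩ := rSTD x D hx hD hF
  have hz : ∀ i, ∀ t ∈ Bl p n, ∀ l, b₀.z l ∈ ((b i).Φ t).O ∧ ‖((b i).Φ t).ev (b₀.z l)‖ ≤ 1 :=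
    fun i t ht l => hi i t ht _ (Or.inl ⟨l, rfl⟩)
  have hs : Sb b fun _ : Unit => b₀ := rLIE _ _ ⟨∅, by simp, fun i t ht _ =>
    ⟨(), _, mem_bl.2 fun l => (hz i t ht l).2, h3 _ (hz i t ht)⟩⟩
  have hv : ∀ a, ∑ i, (d i).ser p a = mN p n (Zs p f j (a ())) := fun a => by
    obtain ⟨S, hS⟩ : ∃ S : Set (Pt p L), S = Lv (fun _ => aeval b₀.z (f j)) a ∩
      {y | ∀ c ∈ dom p b₀.z f j, c ∈ y.O ∧ ‖y.ev c‖ ≤ 1} := ⟨_, rfl⟩
    have e1 : ∀ i, (d i).ser p a = ∫⁻ t in Bl p n, S.indicator 1 ((b i).Φ t) *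
        ‖((b i).Φ t).ev (1 * (b i).jac b₀.z)‖ₑ ∂mN p n := fun i => by
      rw [← frm (ha i), (b i).vol_eq _ _ ((b i).open_Lv _ a).measurableSet.nullMeasurableSet]
      refine setLIntegral_congr_fun Metric.isClosed_closedBall.measurableSet fun t ht => ?_
      have : (b i).Φ t ∈ S ↔ (b i).Φ t ∈ Lv (fun _ => aeval b₀.z (f j)) a :=
        hS ▸ and_iff_left (hi i t ht)
      by_cases h : (b i).Φ t ∈ S
      · simp [h, this.1 h]
      · simp [h, mt this.2 h]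
    simp only [e1]
    obtain ⟨Y, y0, hY⟩ := hc
    rw [cmp_on hd hs 1 _ _ ?_, setLIntegral_congr_fun (g := (Zs p f j (a ())).indicator 1)
      Metric.isClosed_closedBall.measurableSet fun t ht => ?_,
      lintegral_indicator_one (meas_Zs f j _), Measure.restrict_apply (meas_Zs f j _),
      inter_eq_left.2 fun t ht => ht.1]
    · have := hS ▸ mem_std (b := b₀) f j a ht
      by_cases h : b₀.Φ t ∈ S
      · simp [h, this.1 h, b₀.jac_self, Pt.ev_one]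
      · simp [h, mt this.2 h]
    · filter_upwards [b₀.ae_eq b, (ae_ball_iff Y.countable_toSet).2 fun y hy =>
        rNUL b₀ y fun e => y0 (e ▸ hy)] with t k1 k2 k3
      obtain ⟨i, s, k4, e⟩ := hY _ k2 (hS ▸ mem_of_indicator_ne_zero k3).2
      exact ⟨i, s, k4, k1.2 i s k4 e⟩
  have hν : ∀ i l, 0 < (d i).ν l := fun i l => by
    have := (ha i).frm.nonneg
      (fun t ht => mul_mem (one_mem _) ((b i).jac_mem ht fun l => (hz i t ht l).1)) l
    omega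
  have hT : ∀ i, (d i).Tame := fun i => ⟨fun u => .inl (((ha i).fn u).nonneg
    fun t ht => (IGU.ev_int _ (fun l => (hz i t ht l).1) _).1), fun l _ => hν i l⟩
  obtain ⟨Q, P, k1, k2⟩ := IGU.rv_ser ξ ε hξ (fun e he => by
    have : Zs p f j (e ()) = ∅ := Set.eq_empty_of_forall_notMem fun t ht =>
      (IGU.norm_le ht.1 (f j)).not_gt (ht.2.1 ▸ one_lt_zpow₀ one_lt_p (neg_pos.2 he))
    rw [hv, this, measure_empty, ENNReal.toReal_zero, Complex.ofReal_zero])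
    (rv_sum Finset.univ fun i _ => ⟨hT i, h1 i⟩) h2
  exact ⟨Q, P, k1, by simpa only [hv, zser] using k2⟩

end Pool.Agent.MP_5d9b3c_ag.O3I
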