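import Pool.Agent.MP_5d9b3c_ag.O3I.Main

/-! The theorem for the polynomials `y_1 f_1 + ⋯ + y_r f_r`. -/

namespace Pool.Agent.MP_5d9b3c_ag.O3I

open MvPolynomial H48G H72

theorem main_lin (hc : Core) {n r : ℕ} (hn : n ≤ 3) {f : Fin r → MvPolynomial (Fin n) ℤ}
    (hf : ∃ i, f i ≠ 0) {F : MvPolynomial (Fin r ⊕ Fin n) ℤ}
    (hF : F = ∑ i, X (Sum.inl i) * rename Sum.inr (f i)) {p : ℕ} (hp : p.Prime)
    {A B : Polynomial ℚ} (hAB : IsCoprime A B) (hP : (B : PowerSeries ℚ) * poincare F p = A)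
    {T : ℂ} (hT : Polynomial.aeval T B = 0) {b : Polynomial ℂ}
    (hb : IsBFunction (map (Int.castRingHom ℂ) F) b) :
    b.eval ((-(Real.log ‖T‖ / Real.log p) : ℝ) : ℂ) = 0 := by
  have e : comb (Fin.cons 0 f : Fin (r + 1) → _) = F := by simp [comb, hF]
  refine main_of hc hn (Fin.cons 0 f) (Or.inr rfl) (fun h => ?_) hp hAB (e ▸ hP) hT (e ▸ hb)
  obtain ⟨i, hi⟩ := hf
  have h1 := congrArg (aeval (Sum.elim (fun j => if j = i then (Polynomial.X : Polynomial
    (MvPolynomial (Fin n) ℤ)) else 0) fun l => Polynomial.C (X l)))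
    (totalDegree_eq_zero_iff_eq_C.1 (e ▸ h))
  have h2 : ∀ g : MvPolynomial (Fin n) ℤ, aeval (fun l => (Polynomial.C (X l) :
      Polynomial (MvPolynomial (Fin n) ℤ))) g = Polynomial.C g := fun g => by
    induction g using MvPolynomial.induction_on <;> simp_all
  rw [aeval_C, hF] at h1
  simp only [map_sum, map_mul, aeval_X, aeval_rename, Sum.elim_inl, Sum.elim_comp_inr, h2, ite_mul,
    zero_mul, Finset.sum_ite_eq', Finset.mem_univ, if_true] at h1
  rw [eq_intCast, ← Polynomial.C_eq_intCast, mul_comm] at h1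
  exact hi ((Polynomial.coeff_C_mul_X _ _).symm.trans ((congrArg (Polynomial.coeff · 1) h1).trans
    (Polynomial.coeff_C_succ (n := 0))))

end Pool.Agent.MP_5d9b3c_ag.O3I
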