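import Pool.Agent.MP_5d9b3c_ag.O3I.Igj
import Pool.Agent.MP_5d9b3c_ag.H48G.Stmt
import Pool.Agent.MP_5d9b3c_ag.H22.Lift
import Pool.Agent.MP_5d9b3c_ag.P3.Pre
import Pool.Agent.MP_5d9b3c_ag.P3.Ext

/-! From the charts to the Poincare series. -/

namespace Pool.Agent.MP_5d9b3c_ag.O3I

open Set MeasureTheory MvPolynomial P3K H48G H72 H10 Filter Topology
open scoped ENNReal

theorem NoP.sum {T : ℂ} {ι : Type} (s : Finset ι) {S : ι → PowerSeries ℂ}
    (h : ∀ i ∈ s, NoP T (S i)) : NoP T (∑ i ∈ s, S i) := by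
  refine Finset.sum_induction _ _ ?_ ⟨1, 0, by simp, by simp⟩ h
  rintro S S' ⟨Q, P, h1, h2⟩ ⟨Q', P', h3, h4⟩
  refine ⟨Q * Q', Q' * P + Q * P', by simp [h1, h3], ?_⟩
  simp only [Polynomial.coe_mul, Polynomial.coe_add, ← h2, ← h4]
  ring

variable {p : ℕ} [Fact p.Prime] {n r : ℕ}

/-- The points where all the functions are divisible by a power of `p`. -/
def Ws (p : ℕ) [Fact p.Prime] (f : Fin r → MvPolynomial (Fin n) ℤ) (m : ℕ) :
    Set (Fin n → ℚ_[p]) := {t ∈ Bl p n | ∀ i, ‖aeval t (f i)‖ ≤ rr p ^ m}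

theorem meas_Ws (f : Fin r → MvPolynomial (Fin n) ℤ) (m : ℕ) : MeasurableSet (Ws p f m) := by
  refine (Metric.isClosed_closedBall.inter
    (?_ : IsClosed {t : Fin n → ℚ_[p] | ∀ i, ‖aeval t (f i)‖ ≤ _})).measurableSet
  rw [setOf_forall]
  exact isClosed_iInter fun i => isClosed_le (IGU.cont (f i)) continuous_const

theorem fin_bl {S : Set (Fin n → ℚ_[p])} (h : S ⊆ Bl p n) : mN p n S ≠ ∞ :=
  ((measure_mono h).trans_lt (isCompact_closedBall _ _).measure_lt_top).ne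

theorem mem_Zs {f : Fin r → MvPolynomial (Fin n) ℤ} {j : Fin r} {m : ℕ} {t : Fin n → ℚ_[p]} :
    t ∈ Zs p f j m ↔ t ∈ Ws p f m ∧ ‖aeval t (f j)‖ = rr p ^ m ∧
      ∀ i < j, ‖aeval t (f i)‖ ≤ rr p ^ (m + 1) := by
  have k : ∀ i, ‖aeval t (f i)‖ ≤ ‖(fac p j i : ℚ_[p])‖ * rr p ^ m ↔
      ‖aeval t (f i)‖ ≤ rr p ^ m ∧ (i < j → ‖aeval t (f i)‖ ≤ rr p ^ (m + 1)) := fun i => by
    rw [fac]
    split_ifs with h
    · rw [norm_pp, ← pow_succ']
      exact ⟨fun e => ⟨e.trans (rr_pow_le.2 m.le_succ), fun _ => e⟩, fun e => e.2 h⟩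
    · simp [h]
  simp only [Zs, Ws, mem_ofPred_eq, ← rr_pow_eq, k, forall_and]
  tauto

theorem step (f : Fin r → MvPolynomial (Fin n) ℤ) (m : ℕ) :
    mN p n (Ws p f m) = ∑ j, mN p n (Zs p f j m) + mN p n (Ws p f (m + 1)) := by
  have ne : ∀ {x : ℚ_[p]}, ‖x‖ = rr p ^ m → ¬‖x‖ ≤ rr p ^ (m + 1) := fun e h => by
    rw [e, rr_pow_le] at h
    omega
  have hd : Pairwise (Function.onFun Disjoint fun j => Zs p f j m) := fun j j' h =>
    Set.disjoint_left.2 fun t h1 h2 => (lt_or_gt_of_ne h).elim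
      (fun e => ne (mem_Zs.1 h1).2.1 ((mem_Zs.1 h2).2.2 j e))
      fun e => ne (mem_Zs.1 h2).2.1 ((mem_Zs.1 h1).2.2 j' e)
  have hd' : Disjoint (⋃ j, Zs p f j m) (Ws p f (m + 1)) :=
    Set.disjoint_left.2 fun t h1 h2 => (mem_iUnion.1 h1).elim fun j h =>
      ne (mem_Zs.1 h).2.1 (h2.2 j)
  have e : Ws p f m = (⋃ j, Zs p f j m) ∪ Ws p f (m + 1) := by
    refine Set.ext fun t => ⟨fun h => ?_, fun h => h.elim
      (fun h => (mem_iUnion.1 h).elim fun j h => (mem_Zs.1 h).1)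
      fun h => ⟨h.1, fun i => (h.2 i).trans (rr_pow_le.2 m.le_succ)⟩⟩
    refine or_iff_not_imp_right.2 fun k => ?_
    obtain ⟨j, h1, h2⟩ := WellFounded.has_min wellFounded_lt
      {i | ¬‖aeval t (f i)‖ ≤ rr p ^ (m + 1)} (not_forall.1 fun e => k ⟨h.1, e⟩)
    exact mem_iUnion.2 ⟨j, mem_Zs.2 ⟨h, (h.2 j).eq_of_not_lt fun e => h1 ((norm_lt_iff _ _).1 e),
      fun i hi => not_not.1 fun e => h2 i e hi⟩⟩
  rw [e, measure_union hd' (meas_Ws f _), measure_iUnion hd fun j => meas_Zs f j _, tsum_fintype]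

theorem wser_eq (f : Fin r → MvPolynomial (Fin n) ℤ) : (H10.wser f p).map (algebraMap ℚ ℂ) =
    PowerSeries.mk fun m => ((mN p n (Ws p f m)).toReal : ℂ) := by
  ext m
  rw [PowerSeries.coeff_mk, Ws, count (p := p) f m, H10.wser, PowerSeries.coeff_map,
    PowerSeries.coeff_mk]
  simp [rr, ← pow_mul, mul_comm]

theorem nop_w {f : Fin r → MvPolynomial (Fin n) ℤ} (hf : f ≠ 0) {T : ℂ}
    (h : ∀ j, f j ≠ 0 → NoP T (zser p f j)) : NoP T ((H10.wser f p).map (algebraMap ℚ ℂ)) := by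
  obtain ⟨Q, P, h1, h2⟩ := NoP.sum (T := T) (S := zser p f) Finset.univ fun j _ => by
    by_cases e : f j = 0
    · refine ⟨1, 0, by simp, PowerSeries.ext fun m => ?_⟩
      have : Zs p f j m = ∅ := Set.eq_empty_of_forall_notMem fun t ht =>
        (rr_pow_pos (p := p) m).ne (by simpa [e] using (mem_Zs.1 ht).2.1)
      simp [zser, this]
    · exact h j e
  obtain ⟨i, hi⟩ := Function.ne_iff.1 hf
  have lim : Tendsto (fun m => ((mN p n (Ws p f m)).toReal : ℂ)) atTop (𝓝 0) :=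
    squeeze_zero_norm (fun m => by
      rw [Complex.norm_real, Complex.norm_real, Real.norm_of_nonneg ENNReal.toReal_nonneg,
        Real.norm_of_nonneg ENNReal.toReal_nonneg]
      exact ENNReal.toReal_mono (IGU.fin_Le (f i) m) (measure_mono fun t ht => ⟨ht.1, ht.2 i⟩))
      (tendsto_zero_iff_norm_tendsto_zero.1 (IGU.lim (p := p) hi))
  obtain ⟨R, hR⟩ := IGU.undiff (a := fun m => ∑ j, ((mN p n (Zs p f j m)).toReal : ℂ)) lim
    (fun m => by
      have k : ∀ j ∈ Finset.univ, mN p n (Zs p f j m) ≠ ∞ := fun j _ => fin_bl fun t ht => ht.1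
      rw [step f m, ENNReal.toReal_add (ENNReal.sum_ne_top.2 k) (fin_bl fun t ht => ht.1),
        ENNReal.toReal_sum k]
      simp) (Q := Q) (P := P) (h2 ▸ congrArg _ (PowerSeries.ext fun m => by simp [zser]))
  exact ⟨Q, R, h1, wser_eq (p := p) f ▸ hR⟩

variable {A B : Polynomial ℚ} {T : ℂ} {b : Polynomial ℂ}

theorem main3 (hc : Core) (f : Fin (r + 1) → MvPolynomial (Fin 3) ℤ) (hr : r = 0 ∨ f 0 = 0)
    (hf : (comb f).totalDegree ≠ 0) (hAB : IsCoprime A B)
    (hP : (B : PowerSeries ℚ) * poincare (comb f) p = A) (hT : Polynomial.aeval T B = 0)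
    (hb : IsBFunction (map (Int.castRingHom ℂ) (comb f)) b) :
    b.eval ((-(Real.log ‖T‖ / Real.log p) : ℝ) : ℂ) = 0 := by
  by_contra hne
  have hp : p.Prime := Fact.out
  have T0 := P3.root_ne hAB hP hT
  have h1 : b.eval (-1) = 0 := by
    obtain ⟨d, P, h7, h8⟩ := hb
    refine H22.root_neg_one (fun h9 => hf ?_) h7 h8
    rwa [totalDegree, support_map_of_injective _ Int.cast_injective] at h9
  have h0 : f ≠ 0 := by
    rintro rfl
    simp [comb] at hf
  rcases hr with rfl | hr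
  · have e : comb f = rename Sum.inr (f 0) := by simp [comb]
    rw [e, map_rename] at hb
    obtain ⟨D, P, h2, h3⟩ := nop_w (p := p) h0 fun j hj =>
      hc _ f j p b T hj T0 (isBS_one _ b hb) hne
    refine h2 (H48G.no_pole hAB hP hT (Eq.trans (congrArg (_ * PowerSeries.map _ ·) ?_) h3))
    ext n
    rw [poincare, H10.wser, PowerSeries.coeff_mk, PowerSeries.coeff_mk, e]
    congr 2
    refine Nat.card_congr ((Equiv.sumArrowEquivProdArrow _ _ _).trans
      (Equiv.uniqueProd _ _) |>.subtypeEquiv fun x => ?_)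
    rw [aeval_rename, Fin.forall_fin_one]
    rfl
  · have e : comb f = H10.lin fun i => f i.succ := by simp [comb, H10.lin, hr]
    rw [e] at hb hP
    simp only [H10.lin, map_sum, map_mul, map_X, map_rename] at hb
    obtain ⟨D, P, h2, h3⟩ := nop_w (p := p) (f := fun i : Fin r => f i.succ)
      (fun h4 => h0 (funext fun j => Fin.cases hr (congrFun h4) j)) fun j hj =>
      hc _ _ j p b T hj T0 (isBS_of _ b hb) hne
    have h4 := congrArg (PowerSeries.map (algebraMap ℚ ℂ)) (countN hp fun i : Fin r => f i.succ)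
    have h5 := H48G.no_pole hAB hP hT (Q := D * (1 - Polynomial.C (p : ℂ)⁻¹ * Polynomial.X))
      (P := Polynomial.C (p : ℂ)⁻¹ * D + Polynomial.C (1 - (p : ℂ)⁻¹) * P) (by
        simp only [map_mul, map_sub, map_add, map_one, PowerSeries.map_C, PowerSeries.map_X,
          map_inv₀, map_natCast] at h4
        simp only [Polynomial.coe_sub, Polynomial.coe_mul, Polynomial.coe_X, Polynomial.coe_C,
          Polynomial.coe_one, Polynomial.coe_add, mul_assoc, h4, ← h3, map_sub, map_one]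
        ring)
    have hp0 : (p : ℂ) ≠ 0 := Nat.cast_ne_zero.2 hp.ne_zero
    have h6 : T = p := by
      simp only [Polynomial.eval_mul, h2, Polynomial.eval_sub, Polynomial.eval_one, mul_eq_zero,
        Polynomial.eval_C, Polynomial.eval_X, false_or] at h5
      exact ((inv_mul_eq_one₀ hp0).1 (sub_eq_zero.1 h5).symm).symm
    rw [h6, Complex.norm_natCast, div_self (Real.log_pos (Nat.one_lt_cast.2 hp.one_lt)).ne'] at hne
    exact hne (by simpa using h1)

omit [Fact p.Prime] in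
/-- The theorem in at most three variables. -/
theorem main_of (hc : Core) (hn : n ≤ 3) (f : Fin (r + 1) → MvPolynomial (Fin n) ℤ)
    (hr : r = 0 ∨ f 0 = 0) (hf : (comb f).totalDegree ≠ 0) (hp : p.Prime) (hAB : IsCoprime A B)
    (hP : (B : PowerSeries ℚ) * poincare (comb f) p = A) (hT : Polynomial.aeval T B = 0)
    (hb : IsBFunction (map (Int.castRingHom ℂ) (comb f)) b) :
    b.eval ((-(Real.log ‖T‖ / Real.log p) : ℝ) : ℂ) = 0 := by
  have := Fact.mk hp
  let e : Fin n ⊕ Fin (3 - n) ≃ Fin 3 := finSumFinEquiv.trans (finCongr (by omega))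
  let e' : (Fin r ⊕ Fin n) ⊕ Fin (3 - n) ≃ Fin r ⊕ Fin 3 :=
    (Equiv.sumAssoc _ _ _).trans ((Equiv.refl _).sumCongr e)
  have he : (e' ∘ Sum.inl).Injective := e'.injective.comp Sum.inl_injective
  have k : comb (fun i => rename (e ∘ Sum.inl) (f i)) = rename (e' ∘ Sum.inl) (comb f) := by
    simp only [comb, map_add, map_sum, map_mul, rename_rename, rename_X]
    rfl
  refine main3 hc (fun i => rename (e ∘ Sum.inl) (f i)) (hr.imp_right fun h => by simp [h]) ?_ hAB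
    (by rw [k, P3.poincare_inl e' _ hp.ne_zero, hP]) hT ?_
  · rw [k]
    refine fun h => hf (totalDegree_eq_zero_iff_eq_C.2 (rename_injective _ he ?_))
    rw [rename_C, ← constantCoeff_eq, ← constantCoeff_rename (e' ∘ Sum.inl)]
    exact totalDegree_eq_zero_iff_eq_C.1 h
  · rw [k, map_rename]
    exact P3.isBF_inj he hb

end Pool.Agent.MP_5d9b3c_ag.O3I
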